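import Mathlib

namespace Pool.Agent.Results.MP_0b5955_al.Rad

/-- center of the ring S, a subset of R closed under the operations -/
def Cen {R : Type} [Ring R] (S : Set R) : Set R := {x | x ∈ S ∧ ∀ s ∈ S, x * s = s * x}

/-- the ring S is centrally essential -/
def CE {R : Type} [Ring R] (S : Set R) : Prop :=
  (∀ a ∈ S, ∀ b ∈ S, a * b = b * a) ∨
    ∀ a ∈ S, a ∉ Cen S → ∃ x ∈ Cen S, ∃ y ∈ Cen S, x ≠ 0 ∧ y ≠ 0 ∧ a * x = y

@[ext] structure T where
  e : ℤ
  (x y : ZMod 4)

instance : Zero T := ⟨⟨0, 0, 0⟩⟩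
instance : One T := ⟨⟨1, 0, 0⟩⟩
instance : Add T := ⟨fun a b => ⟨a.e + b.e, a.x + b.x, a.y + b.y⟩⟩
instance : Neg T := ⟨fun a => ⟨-a.e, -a.x, -a.y⟩⟩
instance : Mul T := ⟨fun a b => ⟨a.e * b.e, a.e * b.x + a.x * b.e + 2 * a.x * b.y,
  a.e * b.y + a.y * b.e⟩⟩

lemma zd : (0 : T) = ⟨0, 0, 0⟩ := rfl
lemma od : (1 : T) = ⟨1, 0, 0⟩ := rfl
lemma ad (a b : T) : a + b = ⟨a.e + b.e, a.x + b.x, a.y + b.y⟩ := rfl
lemma nd (a : T) : -a = ⟨-a.e, -a.x, -a.y⟩ := rfl
lemma md (a b : T) : a * b = ⟨a.e * b.e, a.e * b.x + a.x * b.e + 2 * a.x * b.y,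
  a.e * b.y + a.y * b.e⟩ := rfl

lemma h4 : (4 : ZMod 4) = 0 := rfl

instance : AddCommGroup T where
  add_assoc a b c := by ext <;> simp only [ad] <;> ring
  zero_add a := by ext <;> simp [ad, zd]
  add_zero a := by ext <;> simp [ad, zd]
  add_comm a b := by ext <;> simp only [ad] <;> ring
  neg_add_cancel a := by ext <;> simp [ad, zd, nd]
  nsmul := nsmulRec
  zsmul := zsmulRec

instance : Ring T where
  left_distrib a b c := by ext <;> simp only [ad, md] <;> push_cast <;> ring
  right_distrib a b c := by ext <;> simp only [ad, md] <;> push_cast <;> ring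
  zero_mul a := by ext <;> simp [md, zd]
  mul_zero a := by ext <;> simp [md, zd]
  one_mul a := by ext <;> simp [md, od]
  mul_one a := by ext <;> simp [md, od]
  mul_assoc a b c := by
    ext <;> simp only [md] <;> push_cast
    · ring
    · linear_combination (a.x * b.y * c.y) * h4
    · ring
  neg_add_cancel a := by ext <;> simp [ad, zd, nd]
  zsmul := zsmulRec

lemma memJ (a : T) : a ∈ Ring.jacobson T ↔ a.e = 0 := by
  rw [← Ideal.jacobson_bot, Ideal.mem_jacobson_iff]
  constructor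
  · intro h
    obtain ⟨z, hz⟩ := h a
    rw [Ideal.mem_bot, sub_eq_zero] at hz
    have h1 : z.e * a.e * a.e + z.e = 1 := by simpa [md, ad, od] using congrArg T.e hz
    have h2 : z.e * (a.e * a.e + 1) = 1 := by linarith
    rcases Int.eq_one_or_neg_one_of_mul_eq_one' h2 with h | h
    · have : a.e * a.e = 0 := by linarith [h.2]
      simpa using this
    · nlinarith [h.2, mul_self_nonneg a.e]
  · intro h y
    have h0 : (y * a).e = 0 := by simp [md, h]
    have h3 : ∀ n : T, n.e = 0 → n * n * n = 0 := by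
      intro n hn
      ext
      · simp [md, zd, hn]
      · simp only [md, zd, hn]; push_cast; linear_combination (n.x * n.y * n.y) * h4
      · simp [md, zd, hn]
    refine ⟨1 - y * a + (y * a) * (y * a), ?_⟩
    rw [Ideal.mem_bot, mul_assoc]
    have := h3 _ h0
    generalize y * a = n at *
    calc _ = n * n * n := by noncomm_ring
      _ = 0 := this

lemma cen (a : T) (hx : 2 * a.x = 0) (hy : 2 * a.y = 0) : a ∈ Cen (Set.univ : Set T) := by
  refine ⟨trivial, fun s _ => ?_⟩
  ext <;> simp only [md]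
  · ring
  · linear_combination s.y * hx - s.x * hy
  · ring

theorem result : ∃ (R : Type) (_ : Ring R),
    CE (Set.univ : Set R) ∧ ¬ CE (Ring.jacobson R : Set R) := by
  refine ⟨T, inferInstance, Or.inr ?_, ?_⟩
  · intro a _ ha
    rcases Int.even_or_odd' a.e with ⟨k, hk | hk⟩
    · refine ⟨⟨2, 0, 0⟩, cen _ (by simp) (by simp), _, cen _ ?_ ?_, by simp [zd], ?_, rfl⟩
      · simp only [md]; push_cast; linear_combination a.x * h4
      · simp only [md]; push_cast; linear_combination a.y * h4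
      · intro h
        apply ha
        simp only [md, zd, T.mk.injEq] at h
        push_cast at h
        exact cen _ (by linear_combination h.2.1) (by linear_combination h.2.2)
    · refine ⟨⟨0, 2, 0⟩, cen _ rfl (by simp), ⟨0, 2, 0⟩, cen _ rfl (by simp), by simp [zd]; decide,
        by simp [zd]; decide, ?_⟩
      ext <;> simp only [md, hk] <;> push_cast
      · ring
      · linear_combination (k : ZMod 4) * h4
      · ring
  · have hx : (⟨0, 1, 0⟩ : T) ∈ Ring.jacobson T := (memJ _).2 rfl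
    have hy : (⟨0, 0, 1⟩ : T) ∈ Ring.jacobson T := (memJ _).2 rfl
    have hn : (⟨0, 1, 0⟩ : T) * ⟨0, 0, 1⟩ ≠ (⟨0, 0, 1⟩ : T) * ⟨0, 1, 0⟩ := by
      simp [md]; decide
    rintro (h | h)
    · exact hn (h _ hx _ hy)
    · obtain ⟨c, hc, y, -, -, hy0, rfl⟩ := h _ hx (fun h => hn (h.2 _ hy))
      apply hy0
      have h0 := (memJ c).1 hc.1
      have h1 := congrArg T.x (hc.2 _ hx)
      simp only [md, h0] at h1 ⊢
      ext <;> simp [zd]
      simp at h1
      exact h1.symm

end Pool.Agent.Results.MP_0b5955_al.Rad
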